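import Pool.Agent.Lib_helper39.PEQF.All
import Pool.Agent.Lib_helper97.PATH.Frame

/-!
# COV (MP_892e4c_nt, both signs): the box of forms is covered by boxes of `SL₂(ℤ)` (definitions)
-/

set_option autoImplicit false

namespace Pool.Agent.PENT.COV

open Finset Pool.Agent.PENT.EQ

/-- `ρ X α₀ / (α₀² + γ₀²)` with `α₀ = i D`, `γ₀ = j D` -/
noncomputable def Lo (ρ : ℝ) (X D i : ℕ) (j : ℤ) : ℝ :=
  ρ * X * (((i : ℝ) * D) / (((i : ℝ) * D) ^ 2 + ((j : ℝ) * D) ^ 2))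

/-- good squares `(i D, (i+1) D] × (j D, (j+1) D]`: inside the cone `|γ| < α` and the annulus
`X < α² + γ² ≤ 2 X` -/
def Gq (X D i : ℕ) (j : ℤ) : Prop :=
  1 ≤ i ∧ -(i : ℤ) ≤ j ∧ j + 1 ≤ i ∧
    (X : ℤ) ≤ ((i : ℤ) ^ 2 + min (j ^ 2) ((j + 1) ^ 2)) * (D : ℤ) ^ 2 ∧
    (((i : ℤ) + 1) ^ 2 + max (j ^ 2) ((j + 1) ^ 2)) * (D : ℤ) ^ 2 ≤ 2 * X

/-- the box `(i D, (i+1) D] × (B₁, B₂] × (j D, (j+1) D]` of triples `(α, β, γ)` -/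
noncomputable def sqB (D i : ℕ) (j B₁ B₂ : ℤ) : Finset (ℤ × ℤ × ℤ) :=
  EBox (i * D) ((i + 1) * D) B₁ B₂ (j * D) ((j + 1) * D)

/-- the inner box over a good square -/
noncomputable def gdB (K ρ : ℝ) (X D i : ℕ) (j : ℤ) : Finset (ℤ × ℤ × ℤ) :=
  sqB D i j ⌈Lo ρ X D i j + K * D⌉ ⌊2 * Lo ρ X D i j - K * D⌋

end Pool.Agent.PENT.COV
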